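import Mathlib
import Pool.Agent.Helper50_RIP.Rip5

set_option autoImplicit false

/-!
# Bounded unitary matrices whose random row submatrices have the restricted isometry property
with the optimal number of rows

There are one constant `K` and one family `U_d` of unitary `d × d` matrices with all entries of
modulus at most `K / √d` such that for every `ε` in `(0,1)` there is `C` with
`k_{U_d}(m) ≤ C m log d` for all `d ≥ 2` and all `1 ≤ m ≤ d^{1-ε}`.
-/

namespace Pool.Agent.Results.MP_00538b_an.BoundedUnitary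

/-- Euclidean norm of a complex vector. -/
noncomputable def nrm {ι : Type} [Fintype ι] (x : ι → ℂ) : ℝ := Real.sqrt (∑ i, ‖x i‖ ^ 2)

/-- `Φ` has the `m`-RIP: for some positive scalar `c`, the matrix `c Φ` satisfies
`‖x‖ ≤ ‖c Φ x‖ ≤ 2 ‖x‖` for every vector `x` supported on a set of `m` columns. -/
def HasRIP {ι : Type} [Fintype ι] {d : ℕ} (Φ : Matrix ι (Fin d) ℂ) (m : ℕ) : Prop :=
  ∃ c : ℝ, 0 < c ∧ ∀ S : Finset (Fin d), S.card = m → ∀ x : Fin d → ℂ,
    (∀ j, j ∉ S → x j = 0) →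
      nrm x ≤ c * nrm (Φ.mulVec x) ∧ c * nrm (Φ.mulVec x) ≤ 2 * nrm x

/-- the submatrix formed by the rows in `Ω` -/
def rowSub {d : ℕ} (U : Matrix (Fin d) (Fin d) ℂ) (Ω : Finset (Fin d)) :
    Matrix {i : Fin d // i ∈ Ω} (Fin d) ℂ := U.submatrix (fun i => i.1) id

open Classical in
/-- probability that the submatrix formed by a uniformly random set of `k` rows of `U` has the
`m`-RIP -/
noncomputable def ripProb {d : ℕ} (U : Matrix (Fin d) (Fin d) ℂ) (k m : ℕ) : ℝ :=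
  (((Finset.powersetCard k (Finset.univ : Finset (Fin d))).filter
    (fun Ω => HasRIP (rowSub U Ω) m)).card : ℝ) / (d.choose k : ℝ)

/-- `k_U(m)`: the least `k` such that a random `k`-row submatrix of `U` has the `m`-RIP with
probability at least `1/2` -/
noncomputable def kU {d : ℕ} (U : Matrix (Fin d) (Fin d) ℂ) (m : ℕ) : ℕ :=
  sInf {k : ℕ | 1 / 2 ≤ ripProb U k m}

open Pool.Agent.Helper50_Stretch Pool.Agent.Helper50_RIP Module
open scoped InnerProductSpace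

theorem nrm_sq {ι : Type} [Fintype ι] (x : ι → ℂ) : nrm x ^ 2 = ∑ i, ‖x i‖ ^ 2 :=
  Real.sq_sqrt (Finset.sum_nonneg (fun _ _ => sq_nonneg _))

theorem nrm_nonneg {ι : Type} [Fintype ι] (x : ι → ℂ) : 0 ≤ nrm x := Real.sqrt_nonneg _

/-! ### the full matrix -/

theorem nrm_unitary {d : ℕ} {U : Matrix (Fin d) (Fin d) ℂ} (hU : U ∈ Matrix.unitaryGroup (Fin d) ℂ)
    (x : Fin d → ℂ) : nrm (U.mulVec x) = nrm x := by
  have h1 : ∀ y : Fin d → ℂ, ((∑ i, ‖y i‖ ^ 2 : ℝ) : ℂ) = star y ⬝ᵥ y := by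
    intro y
    rw [dotProduct]
    push_cast
    apply Finset.sum_congr rfl
    intro i _
    rw [Pi.star_apply, RCLike.star_def, ← Complex.normSq_eq_conj_mul_self, Complex.normSq_eq_norm_sq]
    push_cast
    rfl
  have h2 : star U * U = 1 := (Matrix.mem_unitaryGroup_iff').mp hU
  have h3 : star (U.mulVec x) ⬝ᵥ (U.mulVec x) = star x ⬝ᵥ x := by
    rw [Matrix.star_mulVec, Matrix.dotProduct_mulVec, Matrix.vecMul_vecMul,
      ← Matrix.star_eq_conjTranspose, h2, Matrix.vecMul_one]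
  unfold nrm
  congr 1
  have h4 := h1 (U.mulVec x)
  rw [h3, ← h1 x] at h4
  exact_mod_cast h4

theorem ripProb_full {d : ℕ} {U : Matrix (Fin d) (Fin d) ℂ}
    (hU : U ∈ Matrix.unitaryGroup (Fin d) ℂ) (m : ℕ) : 1 / 2 ≤ ripProb U d m := by
  classical
  have hR : HasRIP (rowSub U Finset.univ) m := by
    refine ⟨1, one_pos, ?_⟩
    intro S _ x _
    have h1 : nrm ((rowSub U Finset.univ).mulVec x) = nrm (U.mulVec x) := by
      unfold nrm
      congr 1
      have h2 : ∀ i : {i : Fin d // i ∈ (Finset.univ : Finset (Fin d))},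
          (rowSub U Finset.univ).mulVec x i = U.mulVec x i.1 := fun i => rfl
      simp_rw [h2]
      exact Finset.sum_coe_sort Finset.univ (fun i => ‖U.mulVec x i‖ ^ 2)
    rw [one_mul, h1, nrm_unitary hU]
    have := nrm_nonneg x
    constructor <;> linarith
  unfold ripProb
  have h1 : Finset.powersetCard d (Finset.univ : Finset (Fin d)) = {Finset.univ} := by
    have := Finset.powersetCard_self (Finset.univ : Finset (Fin d))
    rwa [Finset.card_univ, Fintype.card_fin] at this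
  rw [h1, Finset.filter_singleton, if_pos hR, Nat.choose_self]
  norm_num

theorem kU_le {d k m : ℕ} {U : Matrix (Fin d) (Fin d) ℂ} (h : 1 / 2 ≤ ripProb U k m) :
    kU U m ≤ k := Nat.sInf_le h

theorem kU_mem {d : ℕ} {U : Matrix (Fin d) (Fin d) ℂ}
    (hU : U ∈ Matrix.unitaryGroup (Fin d) ℂ) (m : ℕ) : 1 / 2 ≤ ripProb U (kU U m) m :=
  Nat.sInf_mem (s := {k : ℕ | 1 / 2 ≤ ripProb U k m}) ⟨d, ripProb_full hU m⟩

/-! ### the random matrix -/

/-- the matrix of a seed -/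
noncomputable def UM {d : ℕ} (P : ℕ → KP) (O : Fin d → Fin d → ℝ) (ξ : Fin d → Wd d) :
    Matrix (Fin d) (Fin d) ℂ := Matrix.of (fun l j => ((uu P O ξ l j : ℝ) : ℂ))

theorem UM_unitary {d : ℕ} (P : ℕ → KP) {O : Fin d → Fin d → ℝ}
    (hO : ∀ l l', ∑ j, O l j * O l' j = if l = l' then 1 else 0) (ξ : Fin d → Wd d) :
    UM P O ξ ∈ Matrix.unitaryGroup (Fin d) ℂ := by
  rw [Matrix.mem_unitaryGroup_iff]
  ext l l'
  rw [Matrix.mul_apply, Matrix.one_apply]
  have h1 := inner_uu_uu P hO ξ l l'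
  rw [PiLp.inner_apply] at h1
  have h2 : ∀ j, UM P O ξ l j * star (UM P O ξ) j l'
      = ((⟪uu P O ξ l j, uu P O ξ l' j⟫_ℝ : ℝ) : ℂ) := by
    intro j
    rw [Matrix.star_apply]
    unfold UM
    rw [Matrix.of_apply, Matrix.of_apply, RCLike.star_def, Complex.conj_ofReal]
    rw [← Complex.ofReal_mul]
    congr 1
    simp [mul_comm]
  rw [Finset.sum_congr rfl (fun j _ => h2 j), ← Complex.ofReal_sum, h1]
  split_ifs <;> simp

theorem good2_rip {d k m : ℕ} (hd : 0 < d) (hk : 0 < k) (P : ℕ → KP)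
    (O : Fin d → Fin d → ℝ) (ξ : Fin d → Wd d) (Ω : Finset (Fin d))
    (h : Good2 P O k m ξ Ω) : HasRIP (rowSub (UM P O ξ) Ω) m := by
  have hd0 : (0:ℝ) < d := by exact_mod_cast hd
  have hk0 : (0:ℝ) < k := by exact_mod_cast hk
  have hsd : 0 < Real.sqrt d := Real.sqrt_pos.mpr hd0
  have hsk : 0 < Real.sqrt k := Real.sqrt_pos.mpr hk0
  have hsd2 : Real.sqrt d ^ 2 = d := Real.sq_sqrt hd0.le
  have hsk2 : Real.sqrt k ^ 2 = k := Real.sq_sqrt hk0.le
  refine ⟨Real.sqrt d / (7 / 10 * Real.sqrt k), by positivity, ?_⟩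
  intro S hS x hx
  set a : V d := WithLp.toLp 2 (fun j => (x j).re) with ha
  set b : V d := WithLp.toLp 2 (fun j => (x j).im) with hb
  have haS : a ∈ cspan S := by
    rw [mem_cspan_iff]
    intro j hj
    show (x j).re = 0
    rw [hx j hj]; rfl
  have hbS : b ∈ cspan S := by
    rw [mem_cspan_iff]
    intro j hj
    show (x j).im = 0
    rw [hx j hj]; rfl
  have hxn : nrm x ^ 2 = ‖a‖ ^ 2 + ‖b‖ ^ 2 := by
    rw [nrm_sq, EuclideanSpace.real_norm_sq_eq, EuclideanSpace.real_norm_sq_eq,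
      ← Finset.sum_add_distrib]
    apply Finset.sum_congr rfl
    intro j _
    rw [Complex.sq_norm, Complex.normSq_apply]
    show _ = (x j).re ^ 2 + (x j).im ^ 2
    ring
  have hΦ : d * nrm ((rowSub (UM P O ξ) Ω).mulVec x) ^ 2
      = ‖Tm P O ξ Ω a‖ ^ 2 + ‖Tm P O ξ Ω b‖ ^ 2 := by
    rw [norm_Tm, norm_Tm]
    unfold ff
    rw [nrm_sq, ← Finset.sum_add_distrib, Finset.mul_sum]
    have h1 : ∀ i : {i : Fin d // i ∈ Ω}, (d:ℝ) * ‖(rowSub (UM P O ξ) Ω).mulVec x i‖ ^ 2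
        = d * ⟪a, uu P O ξ i.1⟫_ℝ ^ 2 + d * ⟪b, uu P O ξ i.1⟫_ℝ ^ 2 := by
      intro i
      have h2 : (rowSub (UM P O ξ) Ω).mulVec x i
          = ∑ j, ((uu P O ξ i.1 j : ℝ) : ℂ) * x j := rfl
      have h3 : ((rowSub (UM P O ξ) Ω).mulVec x i).re = ⟪a, uu P O ξ i.1⟫_ℝ := by
        rw [h2, Complex.re_sum, PiLp.inner_apply]
        apply Finset.sum_congr rfl
        intro j _
        rw [Complex.re_ofReal_mul]
        show _ = (uu P O ξ i.1 j) * (x j).re
        rfl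
      have h4 : ((rowSub (UM P O ξ) Ω).mulVec x i).im = ⟪b, uu P O ξ i.1⟫_ℝ := by
        rw [h2, Complex.im_sum, PiLp.inner_apply]
        apply Finset.sum_congr rfl
        intro j _
        rw [Complex.im_ofReal_mul]
        show _ = (uu P O ξ i.1 j) * (x j).im
        rfl
      rw [Complex.sq_norm, Complex.normSq_apply, h3, h4]
      ring
    rw [Finset.sum_congr rfl (fun i _ => h1 i)]
    exact Finset.sum_coe_sort Ω (fun i => (d:ℝ) * ⟪a, uu P O ξ i⟫_ℝ ^ 2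
      + d * ⟪b, uu P O ξ i⟫_ℝ ^ 2)
  obtain ⟨a1, a2⟩ := h S hS.le a haS
  obtain ⟨b1, b2⟩ := h S hS.le b hbS
  have sqle : ∀ {u v : ℝ}, 0 ≤ u → u ≤ v → u ^ 2 ≤ v ^ 2 := fun h1 h2 =>
    pow_le_pow_left₀ h1 h2 2
  have a3 := sqle (by positivity) a1
  have a4 := sqle (norm_nonneg _) a2
  have b3 := sqle (by positivity) b1
  have b4 := sqle (norm_nonneg _) b2
  have e1 : ∀ (c y : ℝ), (c * Real.sqrt k * y) ^ 2 = c ^ 2 * (k * y ^ 2) := by
    intro c y
    rw [mul_pow, mul_pow, hsk2]; ring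
  rw [e1] at a3 a4 b3 b4
  set y := nrm ((rowSub (UM P O ξ) Ω).mulVec x) with hy
  have hy0 : 0 ≤ y := nrm_nonneg _
  have hx0 : 0 ≤ nrm x := nrm_nonneg _
  have f1 : (7 / 10 * Real.sqrt k * nrm x) ^ 2 ≤ (Real.sqrt d * y) ^ 2 := by
    rw [e1, mul_pow, hsd2, hΦ, hxn]
    linarith
  have f2 : (Real.sqrt d * y) ^ 2 ≤ (13 / 10 * Real.sqrt k * nrm x) ^ 2 := by
    rw [e1, mul_pow, hsd2, hΦ, hxn]
    linarith
  have g1 : 7 / 10 * Real.sqrt k * nrm x ≤ Real.sqrt d * y := le_of_sq_le_sq f1 (by positivity)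
  have g2 : Real.sqrt d * y ≤ 13 / 10 * Real.sqrt k * nrm x := le_of_sq_le_sq f2 (by positivity)
  have hk7 : 0 < 7 / 10 * Real.sqrt k := by positivity
  constructor
  · rw [div_mul_eq_mul_div, le_div_iff₀ hk7]
    linarith
  · rw [div_mul_eq_mul_div, div_le_iff₀ hk7]
    have : 0 ≤ Real.sqrt k * nrm x := by positivity
    linarith

theorem ripProb_ge {d k m : ℕ} (hd : 0 < d) (hk : 0 < k) (P : ℕ → KP)
    (O : Fin d → Fin d → ℝ) (ξ : Fin d → Wd d)
    (h : 1 / 2 ≤ avg (fun Ω : Om d k => ind (Good2 P O k m ξ Ω.1))) :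
    1 / 2 ≤ ripProb (UM P O ξ) k m := by
  classical
  refine h.trans ?_
  rw [avg_Om (fun Ω => ind (Good2 P O k m ξ Ω))]
  unfold ripProb
  apply div_le_div_of_nonneg_right _ (Nat.cast_nonneg _)
  rw [Finset.card_filter]
  push_cast
  apply Finset.sum_le_sum
  intro Ω _
  apply ind_le
  · split_ifs <;> norm_num
  · intro hG
    rw [if_pos (good2_rip hd hk P O ξ Ω hG)]

theorem exists_matrix (D0 : ℕ) (hD0 : ∀ d, D0 ≤ d → BigD d) (d0 : ℕ → ℕ)
    (hd0 : ∀ i, 1 ≤ i → ∀ d, d0 i ≤ d → BigI i d) (d : ℕ) :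
    ∃ U : Matrix (Fin d) (Fin d) ℂ, U ∈ Matrix.unitaryGroup (Fin d) ℂ ∧
      (∀ i j, ‖U i j‖ ≤ max (2 ^ 69) (Real.sqrt D0) / Real.sqrt d) ∧
      (D0 ≤ d → ∀ i, 1 ≤ i → i ≤ d → d0 i ≤ d → ∀ m : ℕ, 1 ≤ m → m ≤ d →
        (m:ℝ) ≤ (d:ℝ) ^ (1 - 1 / (i:ℝ)) → 1 / 2 ≤ ripProb U (kk i m d) m) := by
  classical
  rcases le_or_gt D0 d with hD | hD
  · have hB := hD0 d hD
    have hdpos := hB.dpos
    have hd : 0 < d := by exact_mod_cast hdpos
    obtain ⟨O, γ, hO, hO2, hO3, hγ⟩ := exists_mix (badS d) (sx d) (groups_fit hd)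
    obtain ⟨ξ, hξ1, hξ2⟩ := exists_seed hB hO hO3 (fun b hb => by
      unfold grp; exact hγ b hb) d0 hd0
    refine ⟨UM (PP d) O ξ, UM_unitary (PP d) hO ξ, ?_, ?_⟩
    · intro i j
      unfold UM
      rw [Matrix.of_apply, Complex.norm_real, Real.norm_eq_abs]
      refine (uu_bound hB hO2 hO3 ξ hξ1 i j).trans ?_
      gcongr
      exact le_max_left _ _
    · intro _ i hi1 hi2 hi3 m hm1 hm2 hm3
      have hk : 0 < kk i m d := by
        apply Nat.ceil_pos.mpr
        have f1 := hB.log_ge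
        have f2 : (1:ℝ) ≤ m := by exact_mod_cast hm1
        have f3 : 0 < AA (64 * i) := by unfold AA; positivity
        positivity
      exact ripProb_ge hd hk (PP d) O ξ (hξ2 i hi1 hi2 hi3 m hm1 hm2 hm3)
  · refine ⟨1, one_mem _, ?_, fun h => absurd h (by omega)⟩
    intro i j
    have hd : 0 < d := by have := i.isLt; omega
    have hdpos : (0:ℝ) < d := by exact_mod_cast hd
    have h1 : ‖(1 : Matrix (Fin d) (Fin d) ℂ) i j‖ ≤ 1 := by
      rw [Matrix.one_apply]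
      split_ifs <;> simp
    refine h1.trans ?_
    rw [le_div_iff₀ (Real.sqrt_pos.mpr hdpos), one_mul]
    refine le_trans ?_ (le_max_right _ _)
    apply Real.sqrt_le_sqrt
    exact_mod_cast hD.le

/-- There are a constant `K` and unitary `d × d` matrices `U_d` (one for each `d`) with all
entries of modulus at most `K / √d` such that for every `ε ∈ (0,1)` there is a constant `C` with
`k_{U_d}(m) ≤ C m log d` for all `d ≥ 2` and all `1 ≤ m ≤ d^{1-ε}` (and a random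
`k_{U_d}(m)`-row submatrix of `U_d` does have the `m`-RIP with probability at least `1/2`). -/
theorem result : ∃ (K : ℝ) (U : (d : ℕ) → Matrix (Fin d) (Fin d) ℂ),
    (∀ d, U d ∈ Matrix.unitaryGroup (Fin d) ℂ) ∧
    (∀ d i j, ‖U d i j‖ ≤ K / Real.sqrt d) ∧
    ∀ ε : ℝ, 0 < ε → ε < 1 → ∃ C : ℝ, ∀ d m : ℕ, 2 ≤ d → 1 ≤ m →
      (m : ℝ) ≤ (d : ℝ) ^ (1 - ε) →
        1 / 2 ≤ ripProb (U d) (kU (U d) m) m ∧ (kU (U d) m : ℝ) ≤ C * m * Real.log d := by
  obtain ⟨D0, hD0⟩ := Filter.eventually_atTop.mp ev_bigD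
  have hex : ∀ i : ℕ, ∃ n : ℕ, 1 ≤ i → ∀ d, n ≤ d → BigI i d := by
    intro i
    by_cases hi : 1 ≤ i
    · obtain ⟨n, hn⟩ := Filter.eventually_atTop.mp (ev_bigI i hi)
      exact ⟨n, fun _ => hn⟩
    · exact ⟨0, fun h => absurd h hi⟩
  choose d0 hd0 using hex
  choose U hU1 hU2 hU3 using exists_matrix D0 hD0 d0 (fun i hi => hd0 i hi)
  refine ⟨max (2 ^ 69) (Real.sqrt D0), U, hU1, hU2, ?_⟩
  intro ε hε0 hε1
  set i := ⌈1 / ε⌉₊ with hi
  have hi1 : 1 ≤ i := by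
    rw [hi]
    exact Nat.one_le_iff_ne_zero.mpr (Nat.ceil_pos.mpr (by positivity)).ne'
  have hi0 : (0:ℝ) < i := by exact_mod_cast hi1
  have hiε : 1 / (i:ℝ) ≤ ε := by
    have h1 : 1 / ε ≤ i := Nat.le_ceil _
    rw [div_le_iff₀ hε0] at h1
    rw [div_le_iff₀ hi0]
    linarith
  set D1 := max (max (d0 i) i) D0 with hD1
  have hlog2 : 0 < Real.log 2 := Real.log_pos (by norm_num)
  have hAA : 1 ≤ AA (64 * i) := by
    unfold AA
    have : 0 ≤ 2 ^ 16 * (((64 * i : ℕ)) : ℝ) := by positivity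
    linarith
  refine ⟨2 * AA (64 * i) + D1 / Real.log 2, ?_⟩
  intro d m hd hm hmd
  refine ⟨kU_mem (hU1 d) m, ?_⟩
  have hd2 : (2:ℝ) ≤ d := by exact_mod_cast hd
  have hm1 : (1:ℝ) ≤ m := by exact_mod_cast hm
  have hlogd : Real.log 2 ≤ Real.log d := Real.log_le_log (by norm_num) hd2
  have hlogd0 : 0 < Real.log d := lt_of_lt_of_le hlog2 hlogd
  rcases le_or_gt D1 d with hc | hc
  · have c1 : d0 i ≤ d := le_trans (le_trans (le_max_left _ _) (le_max_left _ _)) hc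
    have c2 : i ≤ d := le_trans (le_trans (le_max_right _ _) (le_max_left _ _)) hc
    have c3 : D0 ≤ d := le_trans (le_max_right _ _) hc
    have hB := hD0 d c3
    have hℓ := hB.log_ge
    have hmd' : (m:ℝ) ≤ (d:ℝ) ^ (1 - 1 / (i:ℝ)) :=
      hmd.trans (Real.rpow_le_rpow_of_exponent_le (by linarith) (by linarith))
    have hmd2 : m ≤ d := by
      have h1 : (m:ℝ) ≤ (d:ℝ) ^ (1:ℝ) :=
        hmd.trans (Real.rpow_le_rpow_of_exponent_le (by linarith) (by linarith))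
      rw [Real.rpow_one] at h1
      exact_mod_cast h1
    have h1 := kU_le (hU3 d c3 i hi1 c2 c1 m hm hmd2 hmd')
    have h2 : (kU (U d) m : ℝ) ≤ kk i m d := by exact_mod_cast h1
    refine h2.trans ?_
    have hAm : 1 ≤ AA (64 * i) * m * Real.log d := by
      have : 1 ≤ AA (64 * i) * m := by nlinarith
      nlinarith
    have h3 : (kk i m d : ℝ) ≤ 2 * AA (64 * i) * m * Real.log d := by
      have := Nat.ceil_lt_add_one (by linarith : 0 ≤ AA (64 * i) * m * Real.log d)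
      unfold kk
      linarith
    refine h3.trans ?_
    have h4 : 0 ≤ (D1:ℝ) / Real.log 2 := by positivity
    have h5 : 0 ≤ (D1:ℝ) / Real.log 2 * m * Real.log d := by positivity
    calc 2 * AA (64 * i) * m * Real.log d
        ≤ 2 * AA (64 * i) * m * Real.log d + (D1:ℝ) / Real.log 2 * m * Real.log d := by linarith
      _ = _ := by ring
  · have h1 : kU (U d) m ≤ d := kU_le (ripProb_full (hU1 d) m)
    have h2 : (kU (U d) m : ℝ) ≤ D1 := by exact_mod_cast (h1.trans hc.le)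
    have h3 : (D1:ℝ) ≤ D1 / Real.log 2 * m * Real.log d := by
      have e1 : (D1:ℝ) = D1 / Real.log 2 * 1 * Real.log 2 := by field_simp
      calc (D1:ℝ) = D1 / Real.log 2 * 1 * Real.log 2 := e1
        _ ≤ D1 / Real.log 2 * m * Real.log d := by gcongr
    have h4 : 0 ≤ 2 * AA (64 * i) * m * Real.log d := by positivity
    calc (kU (U d) m : ℝ) ≤ D1 / Real.log 2 * m * Real.log d := h2.trans h3
      _ ≤ 2 * AA (64 * i) * m * Real.log d + D1 / Real.log 2 * m * Real.log d := by linarith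
      _ = _ := by ring

end Pool.Agent.Results.MP_00538b_an.BoundedUnitary
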